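import Pool.Agent.COSB.StmtsA

/-!
# Row FCW of squad COSB (MP_0fc649_lc): frames with certificates
-/

set_option autoImplicit false

namespace Pool.Agent.COSB.H25

open Pool.Agent.PAR Pool.Agent.COS Pool.Agent.COSB

/-- the conditions of a frame which contain the predicate -/
theorem frameW_split (f : Word → Bool) (N : ℕ) (Q y Z Z' : Word) :
    frameW f N Q y Z Z' = true ↔ frameW (fun _ => true) N Q y Z Z' = true ∧ f y = true ∧
      (∀ i < N, Q.getD i false = true → f (blW N Z i) = true) ∧
      (∀ i < N, Q.getD i false = true → f (blW N Z' i) = true) := by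
  unfold frameW
  simp only [Bool.and_eq_true, decide_eq_true_eq, true_and]
  constructor
  · rintro ⟨⟨h1, h2⟩, h3⟩
    refine ⟨⟨h2, fun i hi => ?_⟩, h1, fun i hi hq => ?_, fun i hi hq => ?_⟩
    · have h4 := h3 i hi
      by_cases hq : Q.getD i false = true
      · rw [if_pos hq] at h4 ⊢
        simp only [Bool.and_eq_true] at h4 ⊢
        obtain ⟨⟨⟨⟨⟨a1, a2⟩, a3⟩, a4⟩, a5⟩, a6⟩ := h4
        exact ⟨⟨⟨⟨⟨trivial, trivial⟩, a3⟩, a4⟩, a5⟩, a6⟩
      · rw [if_neg hq] at h4 ⊢
        exact h4
    · have h4 := h3 i hi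
      rw [if_pos hq] at h4
      simp only [Bool.and_eq_true] at h4
      exact h4.1.1.1.1.1
    · have h4 := h3 i hi
      rw [if_pos hq] at h4
      simp only [Bool.and_eq_true] at h4
      exact h4.1.1.1.1.2
  · rintro ⟨⟨h2, h3⟩, h1, h4, h5⟩
    refine ⟨⟨h1, h2⟩, fun i hi => ?_⟩
    have h6 := h3 i hi
    by_cases hq : Q.getD i false = true
    · rw [if_pos hq] at h6 ⊢
      simp only [Bool.and_eq_true] at h6 ⊢
      obtain ⟨⟨⟨⟨⟨a1, a2⟩, a3⟩, a4⟩, a5⟩, a6⟩ := h6
      exact ⟨⟨⟨⟨⟨h4 i hi hq, h5 i hi hq⟩, a3⟩, a4⟩, a5⟩, a6⟩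
    · rw [if_neg hq] at h6 ⊢
      exact h6

theorem blW_append {l N i : ℕ} (C1 C2 : Word) (h : C1.length = N * l) (hi : i < N) :
    blW l (C1 ++ C2) i = blW l C1 i := by
  unfold blW
  have h1 : (i + 1) * l ≤ N * l := Nat.mul_le_mul_right l hi
  have h2 : i * l + l ≤ C1.length := by
    rw [h]
    calc i * l + l = (i + 1) * l := by ring
      _ ≤ N * l := h1
  rw [List.drop_append_of_le_length (by omega), List.take_append_of_le_length]
  rw [List.length_drop]
  omega

/-- the certificates of the two families -/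
def PP (g : Word → Word → Bool) (N l : ℕ) (Q Z : Word) (i : ℕ) (c : Word) : Prop :=
  if Q.getD i false = true then g (blW N Z i) c = true else c = List.replicate l false

theorem frC_iff (g : Word → Word → Bool) (N l : ℕ) (F c0 C1 C2 : Word) (h0 : c0.length = l)
    (h1 : C1.length = N * l) :
    frC g N l F (c0 ++ (C1 ++ C2)) = true ↔
      (frameW (fun _ => true) N (blW N F 0) (blW N F 1) (F.drop (2 * N))
        (F.drop (2 * N + N * N)) = true) ∧ g (blW N F 1) c0 = true ∧
      (∀ i < N, PP g N l (blW N F 0) (F.drop (2 * N)) i (blW l C1 i)) ∧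
      (∀ i < N, PP g N l (blW N F 0) (F.drop (2 * N + N * N)) i (blW l C2 i)) := by
  have e1 : (c0 ++ (C1 ++ C2)).take l = c0 := by
    rw [List.take_append_of_le_length (by omega), List.take_of_length_le (by omega)]
  have e2 : (c0 ++ (C1 ++ C2)).drop l = C1 ++ C2 := by
    rw [← h0, List.drop_left]
  have e3 : (c0 ++ (C1 ++ C2)).drop (l + N * l) = C2 := by
    rw [← List.drop_drop, e2, ← h1, List.drop_left]
  unfold frC
  rw [e1, e2, e3]
  simp only [Bool.and_eq_true, decide_eq_true_eq, and_assoc]
  refine and_congr Iff.rfl (and_congr Iff.rfl ?_)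
  constructor
  · intro h
    refine ⟨fun i hi => ?_, fun i hi => ?_⟩
    · have h2 := h i hi
      rw [blW_append C1 C2 h1 hi] at h2
      unfold PP
      by_cases hq : (blW N F 0).getD i false = true
      · rw [if_pos hq] at h2 ⊢
        simp only [Bool.and_eq_true] at h2
        exact h2.1
      · rw [if_neg hq] at h2 ⊢
        simp only [Bool.and_eq_true, decide_eq_true_eq] at h2
        exact h2.1
    · have h2 := h i hi
      unfold PP
      by_cases hq : (blW N F 0).getD i false = true
      · rw [if_pos hq] at h2 ⊢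
        simp only [Bool.and_eq_true] at h2
        exact h2.2
      · rw [if_neg hq] at h2 ⊢
        simp only [Bool.and_eq_true, decide_eq_true_eq] at h2
        exact h2.2
  · rintro ⟨h, h'⟩ i hi
    have h2 := h i hi
    have h3 := h' i hi
    unfold PP at h2 h3
    rw [blW_append C1 C2 h1 hi]
    by_cases hq : (blW N F 0).getD i false = true
    · rw [if_pos hq] at h2 h3 ⊢
      simp only [Bool.and_eq_true]
      exact ⟨h2, h3⟩
    · rw [if_neg hq] at h2 h3 ⊢
      simp only [Bool.and_eq_true, decide_eq_true_eq]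
      exact ⟨h2, h3⟩

theorem fcw (hODC : OdcStmt) (hWRB : COS.WrbStmt) : FcwStmt := by
  classical
  intro g N l
  obtain ⟨o1, o2, o3, o4, o5, o6, -⟩ := hODC
  obtain ⟨e, he1, he2, he3, he4⟩ := hWRB N
  obtain ⟨S, hS⟩ : ∃ S : Word → Bool, ∀ u, S u = true ↔ Od l (fun c => g u c = true) :=
    ⟨fun u => decide (Od l (fun c => g u c = true)), fun u => decide_eq_true_iff⟩
  -- one family
  have hfam : ∀ (Q Z : Word), Od (N * l) (fun C => ∀ i < N, PP g N l Q Z i (blW l C i)) ↔
      ∀ i < N, Q.getD i false = true → S (blW N Z i) = true := by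
    intro Q Z
    rw [o3 N l (PP g N l Q Z)]
    refine forall_congr' fun i => forall_congr' fun _ => ?_
    unfold PP
    by_cases hq : Q.getD i false = true
    · simp only [if_pos hq]
      rw [hS]
      exact ⟨fun h _ => h, fun h => h hq⟩
    · simp only [if_neg hq]
      have h := o4 (List.replicate l false)
      rw [List.length_replicate] at h
      exact ⟨fun _ h' => absurd h' hq, fun _ => h⟩
  -- the certificates of the vectors of one frame
  have hcl : ∀ F : Word, Od (cl N l) (fun C => frC g N l F C = true) ↔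
      frameW S N (blW N F 0) (blW N F 1) (F.drop (2 * N)) (F.drop (2 * N + N * N)) = true := by
    intro F
    rw [frameW_split]
    unfold cl
    rw [o2 l (N * l + N * l)]
    have step : Od l (fun c0 => Od (N * l + N * l) (fun b => frC g N l F (c0 ++ b) = true)) ↔
        Od l (fun c0 => ((frameW (fun _ => true) N (blW N F 0) (blW N F 1) (F.drop (2 * N))
          (F.drop (2 * N + N * N)) = true) ∧
          (∀ i < N, (blW N F 0).getD i false = true → S (blW N (F.drop (2 * N)) i) = true) ∧
          (∀ i < N, (blW N F 0).getD i false = true →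
            S (blW N (F.drop (2 * N + N * N)) i) = true)) ∧ g (blW N F 1) c0 = true) := by
      refine o1 l _ _ fun c0 h0 => ?_
      rw [o2 (N * l) (N * l)]
      have h1 : Od (N * l) (fun a => Od (N * l) (fun b => frC g N l F (c0 ++ (a ++ b)) = true)) ↔
          Od (N * l) (fun a => ((frameW (fun _ => true) N (blW N F 0) (blW N F 1) (F.drop (2 * N))
            (F.drop (2 * N + N * N)) = true) ∧ g (blW N F 1) c0 = true ∧
            (∀ i < N, (blW N F 0).getD i false = true →
              S (blW N (F.drop (2 * N + N * N)) i) = true)) ∧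
            ∀ i < N, PP g N l (blW N F 0) (F.drop (2 * N)) i (blW l a i)) := by
        refine o1 (N * l) _ _ fun a ha => ?_
        have h2 : Od (N * l) (fun b => frC g N l F (c0 ++ (a ++ b)) = true) ↔
            Od (N * l) (fun b => ((frameW (fun _ => true) N (blW N F 0) (blW N F 1)
              (F.drop (2 * N)) (F.drop (2 * N + N * N)) = true) ∧ g (blW N F 1) c0 = true ∧
              ∀ i < N, PP g N l (blW N F 0) (F.drop (2 * N)) i (blW l a i)) ∧
              ∀ i < N, PP g N l (blW N F 0) (F.drop (2 * N + N * N)) i (blW l b i)) := by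
          refine o1 (N * l) _ _ fun b _ => ?_
          rw [frC_iff g N l F c0 a b h0 ha]
          tauto
        rw [h2, o6, hfam]
        tauto
      rw [h1, o6, hfam]
      tauto
    rw [step, o6, hS]
    tauto
  have h1 : Od (fl N) (fun F => Od (cl N l) (fun C => frC g N l F C = true)) ↔
      Od (fl N) (fun F => frameW S N (blW N F 0) (blW N F 1) (F.drop (2 * N))
        (F.drop (2 * N + N * N)) = true) := o1 (fl N) _ _ fun F _ => hcl F
  rw [h1, o5 (fl N) _ (Fr N) e he1 he2 he3]
  have h2 : {t : Fr N | frameW S N (blW N (e t) 0) (blW N (e t) 1) ((e t).drop (2 * N))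
      ((e t).drop (2 * N + N * N)) = true} =
      {t : Fr N | IsFrame {y | Od l (fun c => g (List.ofFn y) c = true)} t} := by
    ext t
    rw [Set.mem_setOf_eq, Set.mem_setOf_eq, he4 S t]
    have h3 : {y : Fin N → Bool | S (List.ofFn y) = true} =
        {y | Od l (fun c => g (List.ofFn y) c = true)} := by
      ext y
      exact hS _
    rw [h3]
  rw [h2]

end Pool.Agent.COSB.H25
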