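import Pool.Agent.COSB.StmtsL
import Pool.Agent.Helper7_LAT.MCH

/-!
# Row IZM of squad COSB (MP_0fc649_lc): the predicate of the machine for heaps of integer matrices
-/

set_option autoImplicit false

namespace Pool.Agent.COSB.H25

open Turing Computability Pool.Agent.UT.Num Pool.Agent.H2XG Pool.Agent.PAR Pool.Agent.COS
open Pool.Agent.LATM

variable {m : ℕ}

theorem nzI {A : (Fin m → List K) → Word} {n w i j : (Fin m → List K) → ℕ} (hA : FPW m A)
    (hn : FPN m n) (hw : FPN m w) (hi : FPN m i) (hj : FPN m j) :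
    FPI m (fun ρ => nz (n ρ) (w ρ) (A ρ) (i ρ) (j ρ)) :=
  LAT.H7.numI hA (((hi.mul hn).add hj).mul (hw.add (FPN.const 1))) (hw.add (FPN.const 1))

theorem mulOkP {A B : (Fin m → List K) → Word} {n w : (Fin m → List K) → ℕ} (hA : FPW m A)
    (hB : FPW m B) (hn : FPN m n) (hw : FPN m w) :
    FPP m (fun ρ => MulOk (n ρ) (w ρ) (A ρ) (B ρ)) := by
  unfold MulOk
  refine FPP.all hn (FPP.all hn.weak (FPP.eqI ?_ (FPI.iteP (FPP.eqN FPN.v1 FPN.v0)
    (FPI.const 1) (FPI.const 0))))
  refine FPI.sum hn.weak.weak (f := fun l σ => nz (n fun i => σ i.succ.succ)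
    (w fun i => σ i.succ.succ) (A fun i => σ i.succ.succ) (σ 1).length l *
    nz (n fun i => σ i.succ.succ) (w fun i => σ i.succ.succ) (B fun i => σ i.succ.succ) l
      (σ 0).length) ?_
  exact (nzI hA.weak.weak.weak hn.weak.weak.weak hw.weak.weak.weak FPN.v1.weak FPN.v0).mul
    (nzI hB.weak.weak.weak hn.weak.weak.weak hw.weak.weak.weak FPN.v0 FPN.v0.weak)

theorem izm : IzmStmt := by
  intro V d w hV m X Y Z A C hX _ _ hA hC
  have hd : FPN m (fun ρ => d.eval (X ρ).length) := hX.len.poly d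
  have hw : FPN m (fun ρ => w.eval (X ρ).length) := hX.len.poly w
  unfold fI
  exact ((mulOkP hA hC hd hw).dec (fun _ => Classical.propDecidable _)).and
    (FPB.call2 hV hX hA)

end Pool.Agent.COSB.H25
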